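import Pool.Agent.Q251.UL.Coef

/-!
# No graph of average degree `2k - 2` is uniquely `k`-list colourable

Suppose that `G` has `n` vertices and `(k - 1) n` edges, and that there is exactly one proper
colouring from the lists `S v` of size `k`. Let `p` be a prime divisor of `k` and let `K` be an
infinite field of characteristic `p`; take the colours as elements of `K`. For a grid
`A = ∏ A v`, `|A v| = k`, in `K ^ V`, the sum of
`∏ (x u - x v) / ∏ ∏ (x v - a)` (the products over the edges, and over the vertices `v` and
`a ∈ A v`, `a ≠ x v`) over all `x ∈ A` is the coefficient of `∏ x v ^ (k - 1)` in the graph polynomial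
and does not depend on `A`. For `A v = S v` it has exactly one nonzero term. If all `A v` are equal to
a set which is invariant under the translation by `1`, the terms come in groups of `p` equal terms,
and the sum is zero.
-/

set_option autoImplicit false

open Finset Pool.Agent.Q251.UL

namespace Pool.Agent.Results.MP_e14bb7_co.AverageDegree

/-- The average degree `2 |E| / |V|` of a graph. -/
noncomputable def averageDegree {V : Type} (G : SimpleGraph V) : ℚ :=
  2 * (Nat.card G.edgeSet : ℚ) / (Nat.card V : ℚ)

/-- `c` is a proper list colouring of `G` from the lists `S`. -/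
def IsListColouring {V C : Type} (G : SimpleGraph V) (S : V → Finset C) (c : V → C) : Prop :=
  (∀ v, c v ∈ S v) ∧ ∀ u v, G.Adj u v → c u ≠ c v

/-- `G` is uniquely `k`-list colourable: for some lists of size exactly `k` there is exactly one
proper list colouring. -/
def UniquelyListColourable {V : Type} (G : SimpleGraph V) (k : ℕ) : Prop :=
  ∃ (C : Type) (S : V → Finset C), (∀ v, (S v).card = k) ∧ ∃! c, IsListColouring G S c

lemma exists_injOn {C K : Type} [Infinite K] [Zero K] (U : Finset C) :
    ∃ φ : C → K, Set.InjOn φ U := by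
  classical
  refine ⟨fun c => if h : c ∈ U then Infinite.natEmbedding K (U.equivFin ⟨c, h⟩).1 else 0, ?_⟩
  intro c hc d hd h
  have hc' : c ∈ U := hc
  have hd' : d ∈ U := hd
  simp only [dif_pos hc', dif_pos hd'] at h
  have h1 := (Infinite.natEmbedding K).injective h
  have h2 := U.equivFin.injective (Fin.ext h1)
  exact congrArg Subtype.val h2

/-- For every `k ≥ 2`, no finite graph (with at least one vertex) whose average degree equals
`2 k - 2` is uniquely `k`-list colourable. -/
theorem result : ∀ k : ℕ, 2 ≤ k → ∀ (V : Type) [Finite V] [Nonempty V] (G : SimpleGraph V),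
    averageDegree G = 2 * (k : ℚ) - 2 → ¬ UniquelyListColourable G k := by
  classical
  intro k hk V _ _ G hG ⟨C, S, hS, c, hc, huniq⟩
  have : Fintype V := Fintype.ofFinite V
  -- the number of edges
  have hcardV : 0 < Fintype.card V := Fintype.card_pos
  have hE0 : G.edgeFinset.card = (k - 1) * Fintype.card V := by
    unfold averageDegree at hG
    rw [Nat.card_eq_fintype_card, Nat.card_eq_fintype_card (α := V),
      ← SimpleGraph.edgeFinset_card] at hG
    have hV : (Fintype.card V : ℚ) ≠ 0 := by exact_mod_cast hcardV.ne'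
    field_simp at hG
    have h2 : (G.edgeFinset.card : ℚ) = ((k - 1 : ℕ) : ℚ) * (Fintype.card V : ℚ) := by
      rw [Nat.cast_sub (by omega)]
      push_cast
      linarith
    exact_mod_cast h2
  let E : Finset (V × V) := G.edgeFinset.image (fun e => (Quot.out e : V × V))
  have hout : ∀ e : Sym2 V, s((Quot.out e : V × V).1, (Quot.out e : V × V).2) = e :=
    fun e => Quot.out_eq e
  have hEcard : E.card = (k - 1) * Fintype.card V := by
    rw [← hE0]
    refine card_image_of_injective _ fun e e' h => ?_
    rw [← hout e, ← hout e', h]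
  have hEadj : ∀ e ∈ E, G.Adj e.1 e.2 := by
    intro e he
    obtain ⟨q, hq, rfl⟩ := mem_image.1 he
    rw [SimpleGraph.mem_edgeFinset, ← hout q, SimpleGraph.mem_edgeSet] at hq
    exact hq
  have hEadj' : ∀ u v, G.Adj u v → (u, v) ∈ E ∨ (v, u) ∈ E := by
    intro u v h
    have hq : s(u, v) ∈ G.edgeFinset := by
      rw [SimpleGraph.mem_edgeFinset, SimpleGraph.mem_edgeSet]; exact h
    have hm : (Quot.out s(u, v) : V × V) ∈ E := mem_image_of_mem _ hq
    have h2 := hout s(u, v)
    rw [Sym2.eq_iff] at h2
    rcases h2 with h2 | h2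
    · left; rwa [← Prod.mk.eta (p := (Quot.out s(u, v) : V × V)), h2.1, h2.2] at hm
    · right; rwa [← Prod.mk.eta (p := (Quot.out s(u, v) : V × V)), h2.1, h2.2] at hm
  -- the field
  obtain ⟨p, hp, hpk⟩ := Nat.exists_prime_and_dvd (show k ≠ 1 by omega)
  have : Fact p.Prime := ⟨hp⟩
  obtain ⟨m, hm⟩ := hpk
  let K := FractionRing (Polynomial (ZMod p))
  have hinj : Function.Injective (algebraMap (Polynomial (ZMod p)) K) :=
    IsFractionRing.injective _ _
  have : Infinite K := Infinite.of_injective _ hinj
  have hι : Fintype.card (Fin m × ZMod p) = k := by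
    rw [Fintype.card_prod, Fintype.card_fin, ZMod.card, hm, mul_comm]
  -- the invariant grid
  let B : Fin m × ZMod p → K := fun a =>
    algebraMap (Polynomial (ZMod p)) K (Polynomial.X ^ (a.1.1 + 1) + Polynomial.C a.2)
  have hBinj : Function.Injective B := by
    intro a b h
    have h1 := hinj h
    have h2 := congrArg (fun q => Polynomial.coeff q (a.1.1 + 1)) h1
    simp only [Polynomial.coeff_add, Polynomial.coeff_X_pow, Polynomial.coeff_C_succ,
      add_zero, if_true] at h2
    have h3 : a.1 = b.1 := by
      by_contra hne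
      rw [if_neg (fun h => hne (Fin.ext (by omega)))] at h2
      exact one_ne_zero h2
    rw [h3] at h1
    have h4 := Polynomial.C_injective (add_left_cancel h1)
    exact Prod.ext h3 h4
  have hBt : ∀ j i t, B (j, i + t) = B (j, i) + algebraMap (ZMod p) K t := by
    intro j i t
    simp only [B]
    rw [IsScalarTower.algebraMap_apply (ZMod p) (Polynomial (ZMod p)) K,
      Polynomial.algebraMap_eq, ← map_add, add_assoc, ← map_add]
  -- the colours in the field
  obtain ⟨φ, hφ⟩ := exists_injOn (K := K) (univ.biUnion S)
  have hSU : ∀ v a, a ∈ S v → a ∈ ((univ.biUnion S : Finset C) : Set C) :=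
    fun v a ha => mem_coe.2 (mem_biUnion.2 ⟨v, mem_univ _, ha⟩)
  have hev : ∀ v, Nonempty ((S v) ≃ (Fin m × ZMod p)) := fun v =>
    ⟨Fintype.equivOfCardEq (by rw [Fintype.card_coe, hS, hι])⟩
  let ev : ∀ v, (S v) ≃ (Fin m × ZMod p) := fun v => (hev v).some
  let b : V → Fin m × ZMod p → K := fun v i => φ ((ev v).symm i).1
  have hb : ∀ v, Function.Injective (b v) := by
    intro v i j h
    have h1 := hφ (hSU v _ ((ev v).symm i).2) (hSU v _ ((ev v).symm j).2) h
    exact (ev v).symm.injective (Subtype.ext h1)
  have hpos : 0 < Fintype.card (Fin m × ZMod p) := by rw [hι]; omega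
  have hE1 : E.card = (Fintype.card (Fin m × ZMod p) - 1) * Fintype.card V := by
    rw [hι, hEcard]
  have h0 : Phi b (diff E) = 0 := by
    rw [Phi_diff b hb E hpos hE1, ← Phi_diff (fun _ : V => B) (fun _ => hBinj) E hpos hE1]
    exact Phi_translation p m B hBt E
  -- exactly one term is not zero
  let s0 : V → Fin m × ZMod p := fun v => ev v ⟨c v, hc.1 v⟩
  have hs0 : ∀ v, b v (s0 v) = φ (c v) := fun v => by simp [b, s0]
  have h1 : Phi b (diff E) = diff E (fun v => b v (s0 v)) * ∏ v, wt (b v) (s0 v) := by
    unfold Phi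
    refine sum_eq_single s0 (fun s _ hs => ?_) (fun h => absurd (mem_univ _) h)
    by_contra hne
    apply hs
    have hd : diff E (fun v => b v (s v)) ≠ 0 := left_ne_zero_of_mul hne
    unfold diff at hd
    rw [prod_ne_zero_iff] at hd
    have hcol : IsListColouring G S (fun v => ((ev v).symm (s v)).1) := by
      refine ⟨fun v => ((ev v).symm (s v)).2, fun u v huv heq => ?_⟩
      have heq' : b u (s u) = b v (s v) := congrArg φ heq
      rcases hEadj' u v huv with h | h
      · exact hd _ h (sub_eq_zero.2 heq')
      · exact hd _ h (sub_eq_zero.2 heq'.symm)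
    have h2 := huniq _ hcol
    funext v
    have h3 : ((ev v).symm (s v)) = ⟨c v, hc.1 v⟩ := Subtype.ext (congrFun h2 v)
    simp only [s0]
    rw [← h3, Equiv.apply_symm_apply]
  rw [h1] at h0
  refine absurd h0 (mul_ne_zero ?_ (prod_ne_zero_iff.2 fun v _ => wt_ne_zero (hb v) _))
  unfold diff
  refine prod_ne_zero_iff.2 fun e he => ?_
  show b e.1 (s0 e.1) - b e.2 (s0 e.2) ≠ 0
  rw [hs0, hs0]
  refine sub_ne_zero.2 fun h => ?_
  exact hc.2 _ _ (hEadj e he) (hφ (hSU _ _ (hc.1 _)) (hSU _ _ (hc.1 _)) h)

end Pool.Agent.Results.MP_e14bb7_co.AverageDegree
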